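import Pool.Agent.Helper36.HQ.MEANB

/-! HQ, part DRIFT: Cesàro means of the workload. -/

set_option autoImplicit false

open MeasureTheory Filter Topology
open scoped ENNReal NNReal

namespace Pool.Agent.Helper79.HQ.DRIFT

open Pool.Agent.Helper98.HQ Pool.Agent.Helper36.HQ.MEANB

theorem main (hSQ : S_SQ) (hKWB : S_KWB) (hKWM : S_KWM) : S_DRIFT := by
  intro m ν hI
  have hν := hI.prob
  set A := ∫ u, u.1 ∂ν with hA
  set B := ∫ u, u.2 ∂ν with hB
  set E2 := ∫ u, u.2 ^ 2 ∂ν with hE2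
  set T2 := ∫ u, u.1 ^ 2 ∂ν with hT2
  have hE2n : 0 ≤ E2 := integral_nonneg (fun _ => sq_nonneg _)
  have hT2n : 0 ≤ T2 := integral_nonneg (fun _ => sq_nonneg _)
  have hm1 : (0 : ℝ) < (m : ℝ) + 1 := by positivity
  have hstab : B < ((m : ℝ) + 1) * A := by
    have := hI.stab
    push_cast at this
    exact this
  set κ : ℝ := 2 * (A - B / (m + 1)) with hκ
  have hκ0 : 0 < κ := by
    have : B / (m + 1) < A := by
      rw [div_lt_iff₀ hm1]
      linarith
    simp only [hκ]
    linarith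
  set C : ℝ := E2 + (m + 1) * T2 with hC
  have hC0 : 0 ≤ C := by positivity
  have hsumm : Measurable (fun w : Fin (m + 1) → ℝ => ∑ i, w i) :=
    Finset.measurable_sum _ (fun i _ => measurable_pi_apply i)
  have hbd : ∀ w : Fin (m + 1) → ℝ, Adm w →
      ENNReal.ofReal κ * ENNReal.ofReal (∑ i, w i) +
      op ν 1 (fun w => ENNReal.ofReal (∑ i, w i ^ 2)) w ≤
      ENNReal.ofReal (∑ i, w i ^ 2) + ENNReal.ofReal C := by
    intro w hw
    have hZn : 0 ≤ ∫ u, ZZ 1 w u ∂ν := by
      refine integral_nonneg_of_ae ?_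
      filter_upwards [hI.nn] with u hu
      exact le_trans (Finset.sum_nonneg (fun _ _ => sq_nonneg _))
        (step_le hSQ 1 zero_le_one w u hu)
    have hop : op ν 1 (fun w => ENNReal.ofReal (∑ i, w i ^ 2)) w ≤
        ENNReal.ofReal (∫ u, ZZ 1 w u ∂ν) := by
      have hZ0 : 0 ≤ᵐ[ν] ZZ 1 w := by
        filter_upwards [hI.nn] with u hu
        exact le_trans (Finset.sum_nonneg (fun _ _ => sq_nonneg _))
          (step_le hSQ 1 zero_le_one w u hu)
      rw [ofReal_integral_eq_lintegral_ofReal (int_ZZ hI 1 w).1 hZ0]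
      unfold op
      refine lintegral_mono_ae ?_
      filter_upwards [hI.nn] with u hu
      exact ENNReal.ofReal_le_ofReal (step_le hSQ 1 zero_le_one w u hu)
    have hsum0 : 0 ≤ ∑ i, w i := Finset.sum_nonneg (fun i _ => hw.2 i)
    have hsq0 : 0 ≤ ∑ i, w i ^ 2 := Finset.sum_nonneg (fun i _ => sq_nonneg _)
    have hw0 : ((m : ℝ) + 1) * w 0 ≤ ∑ i, w i := by
      have : ∑ _i : Fin (m + 1), w 0 ≤ ∑ i, w i :=
        Finset.sum_le_sum (fun i _ => hw.1 (Fin.zero_le i))
      simpa using this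
    calc _ ≤ ENNReal.ofReal κ * ENNReal.ofReal (∑ i, w i) +
          ENNReal.ofReal (∫ u, ZZ 1 w u ∂ν) := by gcongr
      _ = ENNReal.ofReal (κ * ∑ i, w i + ∫ u, ZZ 1 w u ∂ν) := by
          rw [← ENNReal.ofReal_mul hκ0.le, ← ENNReal.ofReal_add (mul_nonneg hκ0.le hsum0) hZn]
      _ ≤ ENNReal.ofReal (∑ i, w i ^ 2 + C) := by
          refine ENNReal.ofReal_le_ofReal ?_
          rw [(int_ZZ hI 1 w).2]
          have hB0 : 0 ≤ B := hI.Spos.le
          have h3 : 2 * w 0 * B ≤ 2 * (B / (m + 1)) * ∑ i, w i := by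
            have h4 : 2 * (B / (m + 1)) * ∑ i, w i = (2 * B / (m + 1)) * ∑ i, w i := by ring
            rw [h4, div_mul_eq_mul_div, le_div_iff₀ hm1]
            nlinarith
          rw [hκ, hC]
          nlinarith
      _ = _ := ENNReal.ofReal_add hsq0 hC0
  have key : ∀ (n : ℕ) (x : Fin (m + 1) → ℝ), Adm x →
      ENNReal.ofReal κ * ∑ j ∈ Finset.range n,
        (op ν 1)^[j] (fun w => ENNReal.ofReal (∑ i, w i)) x ≤
      ENNReal.ofReal (∑ i, x i ^ 2) + n * ENNReal.ofReal C := by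
    intro n
    induction n with
    | zero =>
      intro x _
      simp
    | succ n ih =>
      intro x hx
      have hmeas : ∀ j, Measurable fun u : ℝ × ℝ =>
          (op ν 1)^[j] (fun w : Fin (m + 1) → ℝ => ENNReal.ofReal (∑ i, w i)) (stp 1 x u) := by
        intro j
        exact (hKWM.2.2.1 (m + 1) ν 1 _ hν hsumm.ennreal_ofReal j).comp
          ((hKWM.2.1 (m + 1) 1).comp (measurable_const.prodMk measurable_id))
      rw [Finset.sum_range_succ', mul_add]
      have h1 : ∑ j ∈ Finset.range n,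
          (op ν 1)^[j + 1] (fun w : Fin (m + 1) → ℝ => ENNReal.ofReal (∑ i, w i)) x =
          ∫⁻ u, ∑ j ∈ Finset.range n,
            (op ν 1)^[j] (fun w : Fin (m + 1) → ℝ => ENNReal.ofReal (∑ i, w i)) (stp 1 x u)
              ∂ν := by
        rw [lintegral_finsetSum _ fun j _ => hmeas j]
        refine Finset.sum_congr rfl fun j _ => ?_
        rw [Function.iterate_succ_apply']
        rfl
      rw [h1, ← lintegral_const_mul' _ _ ENNReal.ofReal_ne_top]
      have h2 : ∫⁻ u, ENNReal.ofReal κ * ∑ j ∈ Finset.range n,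
            (op ν 1)^[j] (fun w : Fin (m + 1) → ℝ => ENNReal.ofReal (∑ i, w i)) (stp 1 x u)
              ∂ν ≤ op ν 1 (fun w => ENNReal.ofReal (∑ i, w i ^ 2)) x + n * ENNReal.ofReal C := by
        calc _ ≤ ∫⁻ u, (ENNReal.ofReal (∑ i, (stp 1 x u i) ^ 2) + n * ENNReal.ofReal C) ∂ν :=
              lintegral_mono fun u => ih _ (hKWB (m + 1) x x _ 0 _).1
          _ = _ := by
            rw [lintegral_add_right _ measurable_const, lintegral_const, measure_univ, mul_one]
            rfl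
      calc _ ≤ (op ν 1 (fun w => ENNReal.ofReal (∑ i, w i ^ 2)) x + n * ENNReal.ofReal C) +
            ENNReal.ofReal κ * ENNReal.ofReal (∑ i, x i) := by
            gcongr
            exact le_of_eq rfl
        _ = (ENNReal.ofReal κ * ENNReal.ofReal (∑ i, x i) +
            op ν 1 (fun w => ENNReal.ofReal (∑ i, w i ^ 2)) x) + n * ENNReal.ofReal C := by ring
        _ ≤ (ENNReal.ofReal (∑ i, x i ^ 2) + ENNReal.ofReal C) + n * ENNReal.ofReal C := by
            exact add_le_add_left (hbd x hx) _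
        _ = _ := by
            push_cast
            ring
  refine ⟨κ, C, hκ0, hC0, fun x n hx => ?_⟩
  have h1 := key n x hx
  have hsq0 : 0 ≤ ∑ i, x i ^ 2 := Finset.sum_nonneg (fun i _ => sq_nonneg _)
  have h2 : ENNReal.ofReal (∑ i, x i ^ 2) + n * ENNReal.ofReal C =
      ENNReal.ofReal (∑ i, x i ^ 2 + C * n) := by
    rw [ENNReal.ofReal_add hsq0 (by positivity), ENNReal.ofReal_mul hC0, ENNReal.ofReal_natCast,
      mul_comm (n : ℝ≥0∞)]
  rw [h2] at h1
  rw [ENNReal.ofReal_div_of_pos hκ0, ENNReal.le_div_iff_mul_le (Or.inl (by simpa using hκ0))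
    (Or.inl ENNReal.ofReal_ne_top), mul_comm]
  exact h1

end Pool.Agent.Helper79.HQ.DRIFT
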